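import Mathlib

set_option autoImplicit false

open Polynomial

namespace Pool.Agent.Lib.MP_be0b77_nt

/-- Shifted Chebyshev polynomials: `D n (2 + 2 cos t) = 2 cos (n t)`. -/
noncomputable def D : ℕ → ℤ[X]
  | 0 => 2
  | 1 => X - 2
  | (n + 2) => (X - 2) * D (n + 1) - D n

/-- Companion sequence, `D n` has derivative `n * E n`. -/
noncomputable def E : ℕ → ℤ[X]
  | 0 => 0
  | 1 => 1
  | (n + 2) => (X - 2) * E (n + 1) - E n

lemma D_add_two (n : ℕ) : D (n + 2) = (X - 2) * D (n + 1) - D n := rfl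
lemma E_add_two (n : ℕ) : E (n + 2) = (X - 2) * E (n + 1) - E n := rfl

lemma D_eq_E (n : ℕ) : D (n + 1) = E (n + 2) - E n := by
  induction n using Nat.twoStepInduction with
  | zero => simp [D, E]
  | one => simp only [D, E]; ring
  | more n h1 h2 =>
    rw [D_add_two (n + 1), h1, h2, E_add_two (n + 2), E_add_two (n + 1), E_add_two n]
    ring

lemma derivative_D (n : ℕ) : derivative (D n) = (n : ℤ[X]) * E n := by
  induction n using Nat.twoStepInduction with
  | zero => simp [D]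
  | one => simp [D, E]
  | more n h1 h2 =>
    rw [D_add_two, derivative_sub, derivative_mul, h1, h2, D_eq_E n, E_add_two n]
    simp
    ring

lemma dvd_mul_coeff_D (n i : ℕ) : (n : ℤ) ∣ (i : ℤ) * (D n).coeff i := by
  cases i with
  | zero => simp
  | succ i =>
    have h := congrArg (fun p => p.coeff i) (derivative_D n)
    simp only [coeff_derivative] at h
    have h2 : ((n : ℤ[X]) * E n).coeff i = (n : ℤ) * (E n).coeff i := by
      rw [← C_eq_natCast, coeff_C_mul]
    rw [h2] at h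
    refine ⟨(E n).coeff i, ?_⟩
    rw [← h]
    push_cast
    ring

lemma D_monic (n : ℕ) : (D (n + 1)).Monic ∧ (D (n + 1)).natDegree = n + 1 := by
  have hX : (X - 2 : ℤ[X]).Monic ∧ (X - 2 : ℤ[X]).natDegree = 1 := by
    have : (X - 2 : ℤ[X]) = X - C 2 := rfl
    rw [this]
    exact ⟨monic_X_sub_C _, natDegree_X_sub_C _⟩
  have key : ∀ n : ℕ, ((D (n + 1)).Monic ∧ (D (n + 1)).natDegree = n + 1) ∧
      (D n).natDegree ≤ n := by
    intro n
    induction n with
    | zero =>
      refine ⟨hX, ?_⟩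
      have : D 0 = C 2 := rfl
      rw [this, natDegree_C]
    | succ n ih =>
      obtain ⟨⟨h1, h2⟩, h3⟩ := ih
      refine ⟨?_, h2.le⟩
      have hm : ((X - 2 : ℤ[X]) * D (n + 1)).Monic := hX.1.mul h1
      have hd : ((X - 2 : ℤ[X]) * D (n + 1)).natDegree = n + 1 + 1 := by
        rw [hX.1.natDegree_mul h1, hX.2, h2]; ring
      have hlt : (D n).natDegree < ((X - 2 : ℤ[X]) * D (n + 1)).natDegree := by omega
      rw [D_add_two]
      refine ⟨hm.sub_of_left (degree_lt_degree hlt), ?_⟩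
      rw [natDegree_sub_eq_left_of_natDegree_lt hlt, hd]
  exact (key n).1

lemma D_eval (n : ℕ) (t : ℝ) :
    ((D n).map (Int.castRingHom ℝ)).eval (2 + 2 * Real.cos t) = 2 * Real.cos (n * t) := by
  induction n using Nat.twoStepInduction with
  | zero => simp [D]
  | one => simp [D]
  | more n h1 h2 =>
    rw [D_add_two]
    simp only [Polynomial.map_sub, Polynomial.map_mul, eval_sub, eval_mul, h1, h2, map_X, eval_X]
    have e1 : ((n + 2 : ℕ) : ℝ) * t = ((n + 1 : ℕ) : ℝ) * t + t := by push_cast; ring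
    have e2 : (n : ℝ) * t = ((n + 1 : ℕ) : ℝ) * t - t := by push_cast; ring
    rw [e1, e2, Real.cos_add, Real.cos_sub]
    simp
    ring

/-- Rounding the low coefficients of a real polynomial with a monic basis. -/
lemma rounding (B : ℕ → ℝ[X]) (hBm : ∀ j, (B j).Monic) (hBd : ∀ j, (B j).natDegree = j)
    (b : ℕ → ℝ) (I : Set ℝ) (hb : ∀ j, ∀ x ∈ I, |(B j).eval x| ≤ b j)
    (M : ℕ) (hM : 0 < M) (r : ℕ → ℤ) (N : ℕ) :
    ∀ P : ℝ[X], ∃ R : ℝ[X], (∀ i, N ≤ i → R.coeff i = 0) ∧
      (∀ i, i < N → ∃ k : ℤ, (P + R).coeff i = ((r i + M * k : ℤ) : ℝ)) ∧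
      ∀ x ∈ I, |R.eval x| ≤ M * ∑ j ∈ Finset.range N, b j := by
  induction N with
  | zero => intro P; exact ⟨0, by simp, by simp, by simp⟩
  | succ N ih =>
    intro P
    have hMr : (0 : ℝ) < M := by exact_mod_cast hM
    set u : ℝ := (P.coeff N - r N) / M with hu
    set c : ℝ := M * ((⌈u⌉ : ℝ) - u) with hc
    have hc0 : 0 ≤ c := mul_nonneg hMr.le (sub_nonneg.2 (Int.le_ceil u))
    have hc1 : c ≤ M := by
      have : (⌈u⌉ : ℝ) - u ≤ 1 := by linarith [Int.ceil_lt_add_one u]
      calc c ≤ M * 1 := mul_le_mul_of_nonneg_left this hMr.le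
        _ = M := mul_one _
    obtain ⟨R', h1, h2, h3⟩ := ih (P + C c * B N)
    refine ⟨C c * B N + R', ?_, ?_, ?_⟩
    · intro i hi
      rw [coeff_add, coeff_C_mul, h1 i (by omega),
        coeff_eq_zero_of_natDegree_lt (by rw [hBd]; omega)]
      simp
    · intro i hi
      rcases Nat.lt_succ_iff_lt_or_eq.1 hi with hi | rfl
      · rw [← add_assoc]; exact h2 i hi
      · refine ⟨⌈u⌉, ?_⟩
        have hl : (B i).coeff i = 1 := by
          have := (hBm i).coeff_natDegree
          rwa [hBd] at this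
        rw [coeff_add, coeff_add, coeff_C_mul, h1 i le_rfl, hl, hc, hu]
        push_cast
        field_simp
        ring
    · intro x hx
      rw [Finset.sum_range_succ, eval_add, eval_mul, eval_C]
      have hb0 : |c * (B N).eval x| ≤ M * b N := by
        rw [abs_mul, abs_of_nonneg hc0]
        exact mul_le_mul hc1 (hb N x hx) (abs_nonneg _) hMr.le
      calc |c * (B N).eval x + R'.eval x| ≤ |c * (B N).eval x| + |R'.eval x| := abs_add_le _ _
        _ ≤ M * b N + M * ∑ j ∈ Finset.range N, b j := add_le_add hb0 (h3 x hx)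
        _ = _ := by ring

/-- A real polynomial of degree `n` with `n + 1` sign alternations has all its complex roots
real and in the interval. -/
lemma roots_of_alternation (G : ℝ[X]) (n : ℕ) (hG : G ≠ 0) (hd : G.natDegree ≤ n)
    (x : ℕ → ℝ) (a b : ℝ) (hx : ∀ i, i < n → x (i + 1) < x i)
    (hab : ∀ i, i ≤ n → a ≤ x i ∧ x i ≤ b)
    (hs : ∀ i, i ≤ n → 0 < (-1) ^ i * G.eval (x i)) (z : ℂ) (hz : aeval z G = 0) :
    z.im = 0 ∧ a ≤ z.re ∧ z.re ≤ b := by
  classical
  have hroot : ∀ i, i < n → ∃ y, x (i + 1) < y ∧ y < x i ∧ G.eval y = 0 := by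
    intro i hi
    have h1 := hs i hi.le
    have h2 := hs (i + 1) hi
    have hc : ContinuousOn (fun t => (-1 : ℝ) ^ i * G.eval t) (Set.Icc (x (i + 1)) (x i)) :=
      (continuous_const.mul G.continuous).continuousOn
    have h3 : (-1 : ℝ) ^ i * G.eval (x (i + 1)) < 0 := by
      rw [pow_succ] at h2; linarith
    obtain ⟨y, hy, hy0⟩ := intermediate_value_Ioo (hx i hi).le hc
      (show (0 : ℝ) ∈ Set.Ioo _ _ from ⟨h3, h1⟩)
    refine ⟨y, hy.1, hy.2, ?_⟩
    have hne : (-1 : ℝ) ^ i ≠ 0 := pow_ne_zero _ (by norm_num)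
    exact (mul_eq_zero.1 hy0).resolve_left hne
  choose! y hy using hroot
  have hanti : ∀ i j, i ≤ j → j ≤ n → x j ≤ x i := by
    intro i j hij hj
    induction j with
    | zero => have : i = 0 := by omega
              rw [this]
    | succ j ih =>
      rcases Nat.lt_succ_iff_lt_or_eq.1 (Nat.lt_succ_of_le hij) with h | h
      · exact (hx j hj).le.trans (ih (by omega) (by omega))
      · rw [h]
  have hyanti : ∀ i j, i < j → j < n → y j < y i := by
    intro i j hij hj
    calc y j < x j := (hy j hj).2.1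
      _ ≤ x (i + 1) := hanti _ _ hij hj.le
      _ < y i := (hy i (by omega)).1
  let S : Finset ℂ := (Finset.range n).image (fun i => (y i : ℂ))
  have hS : S.card = n := by
    rw [Finset.card_image_of_injOn, Finset.card_range]
    intro i hi j hj hij
    have hi' : i < n := by simpa using hi
    have hj' : j < n := by simpa using hj
    have hij' : y i = y j := Complex.ofReal_injective hij
    rcases lt_trichotomy i j with h | h | h
    · exact absurd hij' (hyanti i j h hj').ne'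
    · exact h
    · exact absurd hij' (hyanti j i h hi').ne
  have hG' : G.map (algebraMap ℝ ℂ) ≠ 0 := Polynomial.map_ne_zero hG
  have hsub : S ⊆ (G.map (algebraMap ℝ ℂ)).roots.toFinset := by
    intro w hw
    obtain ⟨i, hi, rfl⟩ := Finset.mem_image.1 hw
    have hi' : i < n := by simpa using hi
    rw [Multiset.mem_toFinset, mem_roots hG', IsRoot.def, eval_map_algebraMap]
    have : (y i : ℂ) = algebraMap ℝ ℂ (y i) := rfl
    rw [this, aeval_algebraMap_apply, coe_aeval_eq_eval, (hy i hi').2.2, map_zero]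
  have hcard : (G.map (algebraMap ℝ ℂ)).roots.toFinset.card ≤ S.card := by
    rw [hS]
    calc _ ≤ Multiset.card (G.map (algebraMap ℝ ℂ)).roots := Multiset.toFinset_card_le _
      _ ≤ (G.map (algebraMap ℝ ℂ)).natDegree := card_roots' _
      _ ≤ G.natDegree := natDegree_map_le
      _ ≤ n := hd
  have heq := Finset.eq_of_subset_of_card_le hsub hcard
  have hzS : z ∈ S := by
    rw [heq, Multiset.mem_toFinset, mem_roots hG', IsRoot.def, eval_map_algebraMap]
    exact hz
  obtain ⟨i, hi, rfl⟩ := Finset.mem_image.1 hzS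
  have hi' : i < n := by simpa using hi
  refine ⟨Complex.ofReal_im _, ?_, ?_⟩
  · rw [Complex.ofReal_re]
    exact (hab (i + 1) hi').1.trans (hy i hi').1.le
  · rw [Complex.ofReal_re]
    exact (hy i hi').2.1.le.trans (hab i hi'.le).2

/-- Monic basis adapted to the interval `[0, 4 l]`. -/
noncomputable def B (l : ℝ) : ℕ → ℝ[X]
  | 0 => 1
  | (n + 1) => ((D (n + 1)).map (Int.castRingHom ℝ)).scaleRoots l

lemma B_monic (l : ℝ) (j : ℕ) : (B l j).Monic := by
  cases j with
  | zero => exact monic_one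
  | succ j => exact (monic_scaleRoots_iff l).2 ((D_monic j).1.map _)

lemma mapD_natDegree (j : ℕ) : ((D (j + 1)).map (Int.castRingHom ℝ)).natDegree = j + 1 := by
  rw [(D_monic j).1.natDegree_map, (D_monic j).2]

lemma B_natDegree (l : ℝ) (j : ℕ) : (B l j).natDegree = j := by
  cases j with
  | zero => exact natDegree_one
  | succ j =>
    show (((D (j + 1)).map (Int.castRingHom ℝ)).scaleRoots l).natDegree = j + 1
    rw [natDegree_scaleRoots, mapD_natDegree]

lemma B_eval (l t : ℝ) (j : ℕ) :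
    (B l (j + 1)).eval (l * (2 + 2 * Real.cos t)) =
      l ^ (j + 1) * (2 * Real.cos (((j + 1 : ℕ) : ℝ) * t)) := by
  show (((D (j + 1)).map (Int.castRingHom ℝ)).scaleRoots l).eval _ = _
  rw [scaleRoots_eval_mul, mapD_natDegree, D_eval]

lemma B_coeff (l : ℝ) (j i : ℕ) :
    (B l (j + 1)).coeff i = ((D (j + 1)).coeff i : ℝ) * l ^ (j + 1 - i) := by
  show (((D (j + 1)).map (Int.castRingHom ℝ)).scaleRoots l).coeff _ = _
  rw [coeff_scaleRoots, mapD_natDegree, coeff_map]
  rfl

lemma B_bound (l : ℝ) (hl : 0 ≤ l) (j : ℕ) (t : ℝ) :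
    |(B l j).eval (l * (2 + 2 * Real.cos t))| ≤ 2 * l ^ j := by
  cases j with
  | zero => simp [B]
  | succ j =>
    rw [B_eval, abs_mul, abs_mul, abs_of_nonneg (pow_nonneg hl _), abs_two]
    have h1 := Real.abs_cos_le_one (((j + 1 : ℕ) : ℝ) * t)
    have h2 := pow_nonneg hl (j + 1)
    nlinarith

/-- Monic integer polynomials with all roots in `[0, 4 (q+1)/q]` and prescribed residues of the two
lowest coefficients. -/
theorem exists_poly (q : ℕ) (hq : 0 < q) (M : ℕ) (hM : 0 < M) (r : ℕ → ℤ) :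
    ∃ F : ℤ[X], F.Monic ∧ (M : ℤ) ∣ F.coeff 0 - r 0 ∧ (M : ℤ) ∣ F.coeff 1 - r 1 ∧
      ∀ z : ℂ, aeval z F = 0 → z.im = 0 ∧ 0 ≤ z.re ∧ z.re ≤ 4 * (((q : ℝ) + 1) / q) := by
  have hqr : (0 : ℝ) < q := by exact_mod_cast hq
  set l : ℝ := ((q : ℝ) + 1) / q with hl
  have hl1 : 1 < l := by rw [hl, lt_div_iff₀ hqr]; linarith
  have hl0 : 0 < l := by linarith
  obtain ⟨k, hk⟩ := pow_unbounded_of_one_lt ((M : ℝ) * q) hl1
  have hnk : k + 2 ≤ (k + 2).factorial * q ^ k :=
    (Nat.self_le_factorial _).trans (Nat.le_mul_of_pos_right _ (pow_pos hq k))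
  obtain ⟨N, hN⟩ := Nat.exists_eq_add_of_le hnk
  set m : ℕ := k + 1 + N with hm
  have hn : (k + 2).factorial * q ^ k = m + 1 := by omega
  obtain ⟨R, hR1, hR2, hR3⟩ := rounding (B l) (B_monic l) (B_natDegree l) (fun j => 2 * l ^ j)
    (Set.range fun t : ℝ => l * (2 + 2 * Real.cos t))
    (by rintro j x ⟨t, rfl⟩; exact B_bound l hl0.le j t) M hM r (N + 2) (B l (m + 1))
  set G : ℝ[X] := B l (m + 1) + R with hG
  have hRdeg : R.degree < (B l (m + 1)).degree := by
    rw [degree_eq_natDegree (B_monic l _).ne_zero, B_natDegree, degree_lt_iff_coeff_zero]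
    intro i hi
    exact hR1 i (by omega)
  have hGm : G.Monic := (B_monic l _).add_of_left hRdeg
  have hGd : G.natDegree = m + 1 := by
    rw [hG, natDegree_add_eq_left_of_degree_lt hRdeg, B_natDegree]
  have hlift : G ∈ lifts (Int.castRingHom ℝ) := by
    rw [lifts_iff_coeff_lifts]
    intro i
    rcases lt_or_ge i (N + 2) with hi | hi
    · obtain ⟨c, hc⟩ := hR2 i hi
      exact ⟨_, hc.symm⟩
    · rw [hG, coeff_add, hR1 i hi, add_zero, B_coeff]
      rcases le_or_gt (m + 1) i with hi2 | hi2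
      · refine ⟨(D (m + 1)).coeff i, ?_⟩
        rw [Nat.sub_eq_zero_of_le hi2]; simp
      · obtain ⟨j, hj⟩ : ∃ j, m + 1 = i + j := ⟨m + 1 - i, by omega⟩
        have hj0 : 0 < j := by omega
        have hjk : j ≤ k := by omega
        have h1 : ((m + 1 : ℕ) : ℤ) ∣ (j : ℤ) * (D (m + 1)).coeff i := by
          have h2 := dvd_mul_coeff_D (m + 1) i
          have h3 : (j : ℤ) * (D (m + 1)).coeff i =
              ((m + 1 : ℕ) : ℤ) * (D (m + 1)).coeff i - (i : ℤ) * (D (m + 1)).coeff i := by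
            have : ((m + 1 : ℕ) : ℤ) = i + j := by exact_mod_cast hj
            rw [this]; ring
          rw [h3]
          exact dvd_sub (dvd_mul_right _ _) h2
        have h4 : j * q ^ j ∣ m + 1 := by
          rw [← hn]
          exact mul_dvd_mul (Nat.dvd_factorial hj0 (by omega)) (pow_dvd_pow _ hjk)
        have h5 : (j : ℤ) * (q : ℤ) ^ j ∣ (j : ℤ) * (D (m + 1)).coeff i := by
          refine dvd_trans ?_ h1
          exact_mod_cast h4
        have h6 : (q : ℤ) ^ j ∣ (D (m + 1)).coeff i :=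
          (mul_dvd_mul_iff_left (by exact_mod_cast hj0.ne')).1 h5
        obtain ⟨c, hc⟩ := h6
        refine ⟨c * (q + 1) ^ j, ?_⟩
        have : m + 1 - i = j := by omega
        rw [this, hc, hl, div_pow]
        simp only [eq_intCast]
        push_cast
        field_simp
  obtain ⟨F, hF1, -, hF3⟩ := lifts_and_natDegree_eq_and_monic hlift hGm
  have hcoef : ∀ i, i < N + 2 → (M : ℤ) ∣ F.coeff i - r i := by
    intro i hi
    obtain ⟨c, hc⟩ := hR2 i hi
    rw [← hF1, coeff_map, eq_intCast] at hc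
    have : F.coeff i = r i + M * c := by exact_mod_cast hc
    exact ⟨c, by rw [this]; ring⟩
  refine ⟨F, hF3, hcoef 0 (by omega), hcoef 1 (by omega), ?_⟩
  intro z hz
  have hzG : aeval z G = 0 := by
    rw [← hF1]
    have : Int.castRingHom ℝ = algebraMap ℤ ℝ := rfl
    rw [this, aeval_map_algebraMap]
    exact hz
  have hnr : (0 : ℝ) < ((m + 1 : ℕ) : ℝ) := by exact_mod_cast Nat.succ_pos m
  have hsum : (M : ℝ) * ∑ j ∈ Finset.range (N + 2), 2 * l ^ j < 2 * l ^ (m + 1) := by
    rw [← Finset.mul_sum, geom_sum_eq hl1.ne']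
    have e1 : l - 1 = 1 / q := by rw [hl]; field_simp; ring
    have e2 : l ^ (m + 1) = l ^ k * l ^ (N + 2) := by rw [← pow_add]; congr 1; omega
    have e3 : 0 < l ^ (N + 2) := pow_pos hl0 _
    have hMr : (0 : ℝ) < M := by exact_mod_cast hM
    rw [e1, e2]
    have e4 : (M : ℝ) * (2 * ((l ^ (N + 2) - 1) / (1 / q))) =
        2 * ((M * q) * (l ^ (N + 2) - 1)) := by field_simp
    rw [e4]
    have e5 : 0 < (M : ℝ) * q := mul_pos hMr hqr
    nlinarith
  refine roots_of_alternation G (m + 1) hGm.ne_zero hGd.le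
    (fun i => l * (2 + 2 * Real.cos (i * Real.pi / ((m + 1 : ℕ) : ℝ)))) 0 (4 * l) ?_ ?_ ?_ z hzG
  · intro i hi
    have hi' : ((i + 1 : ℕ) : ℝ) ≤ ((m + 1 : ℕ) : ℝ) := by exact_mod_cast hi
    have : Real.cos (((i + 1 : ℕ) : ℝ) * Real.pi / ((m + 1 : ℕ) : ℝ)) <
        Real.cos ((i : ℝ) * Real.pi / ((m + 1 : ℕ) : ℝ)) := by
      apply Real.cos_lt_cos_of_nonneg_of_le_pi
      · positivity
      · rw [div_le_iff₀ hnr]; nlinarith [Real.pi_pos]
      · apply div_lt_div_of_pos_right _ hnr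
        push_cast; nlinarith [Real.pi_pos]
    exact mul_lt_mul_of_pos_left (by linarith) hl0
  · intro i _
    have h1 := Real.neg_one_le_cos (i * Real.pi / ((m + 1 : ℕ) : ℝ))
    have h2 := Real.cos_le_one (i * Real.pi / ((m + 1 : ℕ) : ℝ))
    constructor <;> nlinarith
  · intro i _
    have h1 := hR3 _ ⟨i * Real.pi / ((m + 1 : ℕ) : ℝ), rfl⟩
    simp only at h1 ⊢
    rw [hG, eval_add, B_eval]
    have e1 : ((m + 1 : ℕ) : ℝ) * (i * Real.pi / ((m + 1 : ℕ) : ℝ)) = i * Real.pi := by
      field_simp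
    rw [e1, Real.cos_nat_mul_pi]
    have h2 := abs_lt.1 (h1.trans_lt hsum)
    rcases neg_one_pow_eq_or ℝ i with h | h <;> rw [h] <;> linarith [h2.1, h2.2]

end Pool.Agent.Lib.MP_be0b77_nt
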