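import Mathlib
import Pool.Agent.Lib.MP_be0b77_nt.Robinson

set_option autoImplicit false

open Polynomial IntermediateField

namespace Pool.Agent.Lib.MP_be0b77_nt

/-- The map `x ↦ x ^ 2 - 2`. -/
def T {R : Type*} [CommRing R] (x : R) : R := x ^ 2 - 2

lemma map_T_iterate {R S : Type*} [CommRing R] [CommRing S] (f : R →+* S) (n : ℕ) (x : R) :
    f (T^[n] x) = T^[n] (f x) := by
  induction n with
  | zero => rfl
  | succ n ih =>
    rw [Function.iterate_succ_apply', Function.iterate_succ_apply', ← ih]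
    simp [T, map_ofNat]

lemma isIntegral_T_iterate {R : Type*} [CommRing R] (n : ℕ) (x : R) (hx : IsIntegral ℤ x) :
    IsIntegral ℤ (T^[n] x) := by
  induction n with
  | zero => exact hx
  | succ n ih =>
    rw [Function.iterate_succ_apply']
    have h2 : IsIntegral ℤ (2 : R) := by
      have := isIntegral_algebraMap (R := ℤ) (A := R) (x := 2)
      simpa using this
    exact (ih.pow 2).sub h2

lemma abs_T_iterate (n : ℕ) (x : ℝ) (hx : |x| ≤ 2) : |T^[n] x| ≤ 2 := by
  induction n with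
  | zero => exact hx
  | succ n ih =>
    rw [Function.iterate_succ_apply', T, abs_le]
    have := abs_le.1 ih
    constructor <;> nlinarith [this.1, this.2]

/-- An algebraic integer with all conjugates in `[0,4]`, shifted by `2`, is preperiodic. -/
lemma preperiodic {E : Type*} [Field E] [CharZero E] (y : E) (hy : IsIntegral ℤ y)
    (hc : ∀ z : ℂ, aeval z (minpoly ℚ y) = 0 → z.im = 0 ∧ 0 ≤ z.re ∧ z.re ≤ 4) :
    ∃ m k : ℕ, 0 < k ∧ T^[k] (T^[m] (y - 2)) = T^[m] (y - 2) := by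
  have hyq : IsIntegral ℚ y := hy.tower_top
  have : FiniteDimensional ℚ ℚ⟮y⟯ := adjoin.finiteDimensional hyq
  have : NumberField ℚ⟮y⟯ := {}
  set g : ℚ⟮y⟯ := AdjoinSimple.gen ℚ y with hg
  have hgy : (algebraMap ℚ⟮y⟯ E) g = y := rfl
  have hgi : IsIntegral ℤ g := by
    rw [← isIntegral_algebraMap_iff (algebraMap ℚ⟮y⟯ E).injective, hgy]
    exact hy
  have h2 : IsIntegral ℤ (2 : ℚ⟮y⟯) := by
    have := isIntegral_algebraMap (R := ℤ) (A := ℚ⟮y⟯) (x := 2)
    simpa using this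
  have hfin := NumberField.Embeddings.finite_of_norm_le ℚ⟮y⟯ ℂ 2
  obtain ⟨a, -, b, -, hab, h⟩ :=
    Set.Infinite.exists_ne_map_eq_of_mapsTo (f := fun n : ℕ => T^[n] (g - 2)) Set.infinite_univ
      (fun n _ => (⟨isIntegral_T_iterate n _ (hgi.sub h2), fun φ => by
        have hroot : aeval (φ g) (minpoly ℚ y) = 0 := by
          rw [← minpoly_gen ℚ y]
          have := aeval_algHom_apply φ.toRatAlgHom g (minpoly ℚ g)
          rw [minpoly.aeval, map_zero] at this
          exact this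
        obtain ⟨h1, h3, h4⟩ := hc _ hroot
        have e : φ (g - 2) = (((φ g).re - 2 : ℝ) : ℂ) := by
          rw [map_sub, map_ofNat]
          apply Complex.ext <;> simp [h1]
        have e2 := map_T_iterate Complex.ofRealHom n ((φ g).re - 2)
        rw [map_T_iterate, e]
        erw [← e2]
        rw [Complex.ofRealHom_eq_coe, Complex.norm_real, Real.norm_eq_abs]
        exact abs_T_iterate n _ (abs_le.2 ⟨by linarith, by linarith⟩)⟩ :
          T^[n] (g - 2) ∈ {x : ℚ⟮y⟯ | IsIntegral ℤ x ∧ ∀ φ : ℚ⟮y⟯ →+* ℂ, ‖φ x‖ ≤ 2})) hfin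
  have h' : T^[a] (y - 2) = T^[b] (y - 2) := by
    have := congrArg (algebraMap ℚ⟮y⟯ E) h
    simp only [map_T_iterate, map_sub, map_ofNat, hgy] at this
    exact this
  rcases lt_or_gt_of_ne hab with hlt | hlt
  · refine ⟨a, b - a, by omega, ?_⟩
    rw [← Function.iterate_add_apply, Nat.sub_add_cancel hlt.le, h']
  · refine ⟨b, a - b, by omega, ?_⟩
    rw [← Function.iterate_add_apply, Nat.sub_add_cancel hlt.le, h']

lemma two_not_dvd_one : ¬ (2 : ℤ_[2]) ∣ 1 := by
  intro h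
  have h1 : ‖(1 : ℤ_[2])‖ < 1 := (PadicInt.norm_lt_one_iff_dvd _).2 (by exact_mod_cast h)
  simp at h1

lemma even_or_odd_padic (x : ℤ_[2]) : (∃ u, x = 2 * u) ∨ ∃ u, x = 2 * u + 1 := by
  have h1 := PadicInt.sub_zmodRepr_mem x
  have h2 := PadicInt.zmodRepr_lt_p x
  rw [PadicInt.maximalIdeal_eq_span_p, Ideal.mem_span_singleton] at h1
  obtain ⟨u, hu⟩ := h1
  have h3 : x.zmodRepr = 0 ∨ x.zmodRepr = 1 := by omega
  rcases h3 with h | h
  · left; refine ⟨u, ?_⟩
    rw [h] at hu; simpa using hu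
  · right; refine ⟨u, ?_⟩
    rw [h] at hu
    have : x - 1 = 2 * u := by simpa using hu
    linear_combination this

lemma contraction (e : ℤ_[2]) (he : T e = e) (c : ℤ_[2]) (hc : (2 : ℤ_[2]) ∣ c - e) (k : ℕ) :
    ∃ w, T^[k + 1] c - e = (c - e) * (2 * w) := by
  induction k with
  | zero =>
    obtain ⟨u, hu⟩ := hc
    refine ⟨u + e, ?_⟩
    simp only [zero_add, Function.iterate_one]
    unfold T at he ⊢
    linear_combination he + (c - e) * hu
  | succ k ih =>
    obtain ⟨w, hw⟩ := ih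
    refine ⟨w * (T^[k + 1] c + e), ?_⟩
    rw [Function.iterate_succ_apply' T (k + 1)]
    generalize T^[k + 1] c = d at hw ⊢
    unfold T at he ⊢
    linear_combination he + (d + e) * hw

lemma periodic_padic (c : ℤ_[2]) (k : ℕ) (hk : 0 < k) (h : T^[k] c = c) : c = 2 ∨ c = -1 := by
  obtain ⟨k, rfl⟩ : ∃ j, k = j + 1 := ⟨k - 1, by omega⟩
  have key : ∀ e : ℤ_[2], T e = e → (2 : ℤ_[2]) ∣ c - e → c = e := by
    intro e he hc
    obtain ⟨w, hw⟩ := contraction e he c hc k
    rw [h] at hw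
    have h1 : (c - e) * (1 - 2 * w) = 0 := by linear_combination hw
    rcases mul_eq_zero.1 h1 with h2 | h2
    · exact sub_eq_zero.1 h2
    · exact absurd ⟨w, by linear_combination h2⟩ two_not_dvd_one
  rcases even_or_odd_padic c with ⟨u, hu⟩ | ⟨u, hu⟩
  · left; exact key 2 (by unfold T; norm_num) ⟨u - 1, by linear_combination hu⟩
  · right; exact key (-1) (by unfold T; norm_num) ⟨u + 1, by linear_combination hu⟩

lemma back_step (x : ℤ_[2]) (h : T x = 2 ∨ T x = -2 ∨ T x = 0 ∨ T x = 1 ∨ T x = -1) :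
    x = 2 ∨ x = -2 ∨ x = 0 ∨ x = 1 ∨ x = -1 := by
  unfold T at h
  have h2 : (2 : ℤ_[2]) ≠ 0 := two_ne_zero
  rcases h with h | h | h | h | h
  · have : (x - 2) * (x + 2) = 0 := by linear_combination h
    rcases mul_eq_zero.1 this with h1 | h1
    · left; linear_combination h1
    · right; left; linear_combination h1
  · have : x ^ 2 = 0 := by linear_combination h
    right; right; left; exact pow_eq_zero_iff (two_ne_zero) |>.1 this
  · exfalso
    rcases even_or_odd_padic x with ⟨u, rfl⟩ | ⟨u, rfl⟩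
    · refine two_not_dvd_one ⟨u ^ 2, mul_left_cancel₀ h2 ?_⟩
      linear_combination -h
    · exact two_not_dvd_one ⟨2 * u ^ 2 + 2 * u, by linear_combination -h⟩
  · exfalso
    rcases even_or_odd_padic x with ⟨u, rfl⟩ | ⟨u, rfl⟩
    · exact two_not_dvd_one ⟨2 * u ^ 2 - 1, by linear_combination -h⟩
    · refine two_not_dvd_one ⟨u ^ 2 + u, mul_left_cancel₀ h2 ?_⟩
      linear_combination -h
  · have : (x - 1) * (x + 1) = 0 := by linear_combination h
    rcases mul_eq_zero.1 this with h1 | h1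
    · right; right; right; left; linear_combination h1
    · right; right; right; right; linear_combination h1

lemma back_iterate (m : ℕ) : ∀ x : ℤ_[2],
    (T^[m] x = 2 ∨ T^[m] x = -2 ∨ T^[m] x = 0 ∨ T^[m] x = 1 ∨ T^[m] x = -1) →
    x = 2 ∨ x = -2 ∨ x = 0 ∨ x = 1 ∨ x = -1 := by
  induction m with
  | zero => intro x h; exact h
  | succ m ih =>
    intro x h
    rw [Function.iterate_succ_apply] at h
    exact back_step x (ih _ h)

/-- The only algebraic integers of `ℚ_[2]` with all conjugates in `[0,4]` are `0,1,2,3,4`. -/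
theorem padic_small (y : ℚ_[2]) (hy : IsIntegral ℤ y)
    (hc : ∀ z : ℂ, aeval z (minpoly ℚ y) = 0 → z.im = 0 ∧ 0 ≤ z.re ∧ z.re ≤ 4) :
    y = 4 ∨ y = 0 ∨ y = 2 ∨ y = 3 ∨ y = 1 := by
  obtain ⟨m, k, hk, h⟩ := preperiodic y hy hc
  have hy2 : IsIntegral ℤ_[2] y := hy.tower_top
  obtain ⟨x, hx⟩ := IsIntegrallyClosed.isIntegral_iff.1 hy2
  have hinj : Function.Injective (algebraMap ℤ_[2] ℚ_[2]) := IsFractionRing.injective _ _
  have e : y - 2 = algebraMap ℤ_[2] ℚ_[2] (x - 2) := by rw [map_sub, hx, map_ofNat]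
  rw [e, ← map_T_iterate, ← map_T_iterate] at h
  have h1 := periodic_padic _ k hk (hinj h)
  have h2 := back_iterate m (x - 2) (by tauto)
  rw [← hx]
  rcases h2 with h2 | h2 | h2 | h2 | h2
  · left; rw [show x = 4 by linear_combination h2, map_ofNat]
  · right; left; rw [show x = 0 by linear_combination h2, map_zero]
  · right; right; left; rw [show x = 2 by linear_combination h2, map_ofNat]
  · right; right; right; left; rw [show x = 3 by linear_combination h2, map_ofNat]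
  · right; right; right; right; rw [show x = 1 by linear_combination h2, map_one]

/-- For every `q, m` there is a `2`-adic integer of absolute value `2 ^ (-(m+1))`, root of a monic
integer polynomial whose complex roots all lie in `[0, 4 (q+1)/q]`. -/
theorem exists_padic_root (q : ℕ) (hq : 0 < q) (m : ℕ) :
    ∃ (x : ℤ_[2]) (F : ℤ[X]), F.Monic ∧ aeval x F = 0 ∧ ‖x‖ = (2 : ℝ) ^ (-((m + 1 : ℕ) : ℤ)) ∧
      ∀ z : ℂ, aeval z F = 0 → z.im = 0 ∧ 0 ≤ z.re ∧ z.re ≤ 4 * (((q : ℝ) + 1) / q) := by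
  obtain ⟨F, hF, ⟨a, ha⟩, ⟨b, hb⟩, hr⟩ := exists_poly q hq (2 ^ (m + 2)) (by positivity)
    (fun i => if i = 0 then 2 ^ (m + 1) else 1)
  simp only [if_true, one_ne_zero, if_false] at ha hb
  push_cast at ha hb
  have hunit : ∀ w : ℤ_[2], ‖1 + 2 * w‖ = 1 := by
    intro w
    by_contra hne
    have hlt : ‖1 + 2 * w‖ < 1 := lt_of_le_of_ne (PadicInt.norm_le_one _) hne
    obtain ⟨u, hu⟩ := (PadicInt.norm_lt_one_iff_dvd _).1 hlt
    refine two_not_dvd_one ⟨u - w, ?_⟩
    have : (1 : ℤ_[2]) + 2 * w = 2 * u := by exact_mod_cast hu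
    linear_combination this
  have h0 : aeval (0 : ℤ_[2]) F = 2 ^ (m + 1) * (1 + 2 * (a : ℤ_[2])) := by
    rw [← coeff_zero_eq_aeval_zero', show F.coeff 0 = 2 ^ (m + 1) * (1 + 2 * a) by
      linear_combination ha]
    simp
  have h1 : aeval (0 : ℤ_[2]) (derivative F) = 1 + 2 * (2 ^ (m + 1) * (b : ℤ_[2])) := by
    rw [← coeff_zero_eq_aeval_zero', coeff_derivative, zero_add,
      show F.coeff 1 = 1 + 2 * (2 ^ (m + 1) * b) by linear_combination hb]
    simp
  have hn0 : ‖aeval (0 : ℤ_[2]) F‖ = (2 : ℝ) ^ (-((m + 1 : ℕ) : ℤ)) := by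
    rw [h0, norm_mul, hunit, mul_one]
    exact_mod_cast PadicInt.norm_p_pow (p := 2) (m + 1)
  have hn1 : ‖aeval (0 : ℤ_[2]) (derivative F)‖ = 1 := by rw [h1, hunit]
  have hlt : ‖aeval (0 : ℤ_[2]) F‖ < ‖aeval (0 : ℤ_[2]) (derivative F)‖ ^ 2 := by
    rw [hn0, hn1, one_pow]
    exact zpow_lt_one_of_neg₀ (by norm_num) (by omega)
  obtain ⟨x, hx0, hx1, -, -⟩ := hensels_lemma hlt
  rw [hn1, sub_zero] at hx1
  obtain ⟨u, hu⟩ := (PadicInt.norm_lt_one_iff_dvd _).1 hx1
  have hu' : x = 2 * u := by exact_mod_cast hu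
  refine ⟨x, F, hF, hx0, ?_, hr⟩
  obtain ⟨c, hc⟩ := (F.map (algebraMap ℤ ℤ_[2])).binomExpansion 0 x
  rw [zero_add, derivative_map, eval_map_algebraMap, eval_map_algebraMap, eval_map_algebraMap,
    hx0, h1] at hc
  have e : aeval (0 : ℤ_[2]) F = -x * (1 + 2 * (2 ^ (m + 1) * (b : ℤ_[2]) + c * u)) := by
    linear_combination -hc - c * x * hu'
  rw [← hn0, e, norm_mul, hunit, norm_neg, mul_one]

end Pool.Agent.Lib.MP_be0b77_nt
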