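import Mathlib
import Pool.Agent.Lib.MP_be0b77_nt.TwoAdic

set_option autoImplicit false

open Polynomial

namespace Pool.Agent.Lib.MP_be0b77_nt

/-- The algebraic `2`-adic numbers. -/
noncomputable abbrev L : Type := algebraicClosure ℚ ℚ_[2]

instance L_isAlgebraic : Algebra.IsAlgebraic ℚ L := algebraicClosure.isAlgebraic ℚ ℚ_[2]

/-- A fixed embedding of the algebraic `2`-adic numbers into `ℂ`. -/
noncomputable def j : L →ₐ[ℚ] ℂ := IsAlgClosed.lift

/-- The totally real algebraic `2`-adic numbers. -/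
noncomputable def Rl : Subfield L where
  carrier := {x | ∀ φ : L →ₐ[ℚ] ℂ, (φ x).im = 0}
  mul_mem' := fun {a b} ha hb φ => by rw [map_mul, Complex.mul_im, ha φ, hb φ]; simp
  one_mem' := fun φ => by simp
  add_mem' := fun {a b} ha hb φ => by rw [map_add, Complex.add_im, ha φ, hb φ]; simp
  zero_mem' := fun φ => by simp
  neg_mem' := fun {a} ha φ => by rw [map_neg, Complex.neg_im, ha φ]; simp
  inv_mem' := fun a ha φ => by rw [map_inv₀, Complex.inv_im, ha φ]; simp

/-- The counterexample field. -/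
noncomputable def K : Subfield ℂ := Rl.map j.toRingHom

lemma L_integral (y : L) : IsIntegral ℚ y := Algebra.IsIntegral.isIntegral y

lemma minpoly_j (y : L) : minpoly ℚ (j y) = minpoly ℚ y := minpoly.algHom_eq j j.injective y

lemma minpoly_val (y : L) : minpoly ℚ (y : ℚ_[2]) = minpoly ℚ y :=
  minpoly.algHom_eq (algebraicClosure ℚ ℚ_[2]).val Subtype.val_injective y

lemma exists_emb (y : L) (z : ℂ) (hz : aeval z (minpoly ℚ y) = 0) :
    ∃ φ : L →ₐ[ℚ] ℂ, φ y = z := by
  have h := Algebra.IsAlgebraic.range_eval_eq_rootSet_minpoly (F := ℚ) (K := L) ℂ y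
  have hz' : z ∈ (minpoly ℚ y).rootSet ℂ :=
    mem_rootSet.2 ⟨minpoly.ne_zero (L_integral y), hz⟩
  rw [← h] at hz'
  exact hz'

theorem K_totally_real (x : ℂ) (hx : x ∈ K) :
    IsIntegral ℚ x ∧ ∀ z : ℂ, aeval z (minpoly ℚ x) = 0 → z.im = 0 := by
  obtain ⟨y, hy, rfl⟩ := hx
  refine ⟨(L_integral y).map j, fun z hz => ?_⟩
  have hz' : aeval z (minpoly ℚ y) = 0 := by rw [← minpoly_j]; exact hz
  obtain ⟨φ, rfl⟩ := exists_emb y z hz'
  exact hy φ

/-- Integers of `K` with all conjugates in `[0,s]`. -/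
def W (s : ℝ) : Set ℂ := {α : ℂ | α ∈ K ∧ IsIntegral ℤ α ∧
  ∀ z : ℂ, aeval z (minpoly ℚ α) = 0 → z.im = 0 ∧ 0 ≤ z.re ∧ z.re ≤ s}

theorem W_finite (s : ℝ) (hs : s ≤ 4) : (W s).Finite := by
  refine (Set.toFinite ({4, 0, 2, 3, 1} : Set ℂ)).subset ?_
  rintro α ⟨⟨y, -, rfl⟩, h1, h2⟩
  have hyi : IsIntegral ℤ y :=
    (isIntegral_algHom_iff (j.restrictScalars ℤ) j.injective).1 h1
  have hyv : IsIntegral ℤ (y : ℚ_[2]) :=
    hyi.map ((algebraicClosure ℚ ℚ_[2]).val.restrictScalars ℤ)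
  have h3 := padic_small (y : ℚ_[2]) hyv (fun z hz => by
    rw [minpoly_val, ← minpoly_j] at hz
    obtain ⟨a, b, c⟩ := h2 z hz
    exact ⟨a, b, c.trans hs⟩)
  have hv : ∀ n : ℕ, (y : ℚ_[2]) = n → j.toRingHom y = n := by
    intro n hn
    have : y = n := Subtype.ext (by rw [hn]; simp)
    rw [this, map_natCast]
  simp only [Set.mem_insert_iff, Set.mem_singleton_iff]
  rcases h3 with h | h | h | h | h
  · left; exact_mod_cast hv 4 (by exact_mod_cast h)
  · right; left; exact_mod_cast hv 0 (by exact_mod_cast h)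
  · right; right; left; exact_mod_cast hv 2 (by exact_mod_cast h)
  · right; right; right; left; exact_mod_cast hv 3 (by exact_mod_cast h)
  · right; right; right; right; exact_mod_cast hv 1 (by exact_mod_cast h)

theorem W_infinite (s : ℝ) (hs : 4 < s) : (W s).Infinite := by
  obtain ⟨q, hq⟩ := exists_nat_gt (4 / (s - 4))
  have hs' : 0 < s - 4 := by linarith
  have hqr : (0 : ℝ) < q := lt_trans (div_pos (by norm_num) hs') hq
  have hq0 : 0 < q := by exact_mod_cast hqr
  have hle : 4 * (((q : ℝ) + 1) / q) ≤ s := by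
    rw [div_lt_iff₀ hs'] at hq
    rw [← mul_div_assoc, div_le_iff₀ hqr]
    nlinarith
  choose x F hF hx hn hr using exists_padic_root q hq0
  have hint : ∀ m, IsIntegral ℤ (x m : ℚ_[2]) := fun m =>
    IsIntegral.map (IsScalarTower.toAlgHom ℤ ℤ_[2] ℚ_[2]) ⟨F m, hF m, hx m⟩
  let y : ℕ → L := fun m => ⟨(x m : ℚ_[2]), mem_algebraicClosure_iff'.2 (hint m).tower_top⟩
  have hyF : ∀ m, aeval (y m) (F m) = 0 := by
    intro m
    apply Subtype.val_injective
    have h1 := aeval_algHom_apply ((algebraicClosure ℚ ℚ_[2]).val.restrictScalars ℤ) (y m) (F m)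
    have h2 := aeval_algHom_apply (IsScalarTower.toAlgHom ℤ ℤ_[2] ℚ_[2]) (x m) (F m)
    rw [hx m, map_zero] at h2
    exact h1.symm.trans h2
  have hφ : ∀ m (φ : L →ₐ[ℚ] ℂ), aeval (φ (y m)) (F m) = 0 := by
    intro m φ
    have h1 := aeval_algHom_apply (φ.restrictScalars ℤ) (y m) (F m)
    rw [hyF m, map_zero] at h1
    exact h1
  refine Set.infinite_of_injective_forall_mem (f := fun m => j (y m)) ?_ ?_
  · intro a b hab
    have h1 : y a = y b := j.injective hab
    have h2 : (x a : ℚ_[2]) = x b := congrArg (fun t : L => (t : ℚ_[2])) h1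
    have h3 : x a = x b := Subtype.ext h2
    have h4 := hn a
    rw [h3, hn b] at h4
    have h5 := zpow_right_injective₀ (by norm_num : (0 : ℝ) < 2) (by norm_num) h4
    omega
  · intro m
    refine ⟨⟨y m, fun φ => (hr m _ (hφ m φ)).1, rfl⟩, ⟨F m, hF m, hφ m j⟩, fun z hz => ?_⟩
    rw [minpoly_j] at hz
    obtain ⟨φ, rfl⟩ := exists_emb _ z hz
    obtain ⟨a, b, c⟩ := hr m _ (hφ m φ)
    exact ⟨a, b, c.trans hle⟩

theorem A_eq : {s : ℝ | 0 < s ∧ (W s).Infinite} = Set.Ioi 4 := by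
  ext s
  constructor
  · rintro ⟨-, h⟩
    by_contra hs
    exact h (W_finite s (not_lt.1 hs))
  · intro hs
    have hs' : (4 : ℝ) < s := hs
    exact ⟨by linarith, W_infinite s hs'⟩

end Pool.Agent.Lib.MP_be0b77_nt
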