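import Mathlib
import Pool.Agent.Lib.MP_be0b77_nt.Field

set_option autoImplicit false

open Polynomial

namespace Pool.Agent.Lib.MP_be0b77_nt

lemma conj_iff {x : ℂ} (hx : IsIntegral ℚ x) (z : ℂ) :
    IsConjRoot ℚ x z ↔ aeval z (minpoly ℚ x) = 0 :=
  isConjRoot_iff_aeval_eq_zero hx

theorem own : ∃ K : Subfield ℂ,
    (∀ x ∈ K, IsAlgebraic ℚ x ∧ ∀ z : ℂ, IsConjRoot ℚ x z → z.im = 0) ∧
    Nonempty (K →+* ℚ_[2]) ∧
    {s : ℝ | 0 < s ∧ {α : ℂ | α ∈ K ∧ IsIntegral ℤ α ∧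
      ∀ z : ℂ, IsConjRoot ℚ α z → z.im = 0 ∧ z.re ∈ Set.Icc 0 s}.Infinite} = Set.Ioi 4 := by
  refine ⟨K, fun x hx => ?_, ?_, ?_⟩
  · obtain ⟨h1, h2⟩ := K_totally_real x hx
    exact ⟨h1.isAlgebraic, fun z hz => h2 z ((conj_iff h1 z).1 hz)⟩
  · have e : Rl.toSubring ≃+* K :=
      Subring.equivMapOfInjective Rl.toSubring j.toRingHom j.injective
    exact ⟨((algebraicClosure ℚ ℚ_[2]).val.toRingHom.comp Rl.toSubring.subtype).comp
      e.symm.toRingHom⟩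
  · rw [← A_eq]
    ext s
    have : {α : ℂ | α ∈ K ∧ IsIntegral ℤ α ∧
      ∀ z : ℂ, IsConjRoot ℚ α z → z.im = 0 ∧ z.re ∈ Set.Icc 0 s} = W s := by
      ext α
      simp only [W, Set.mem_ofPred_eq, Set.mem_Icc]
      refine and_congr_right fun hα => and_congr_right fun _ => ?_
      simp only [conj_iff (K_totally_real α hα).1]
    simp only [Set.mem_ofPred_eq, this]

end Pool.Agent.Lib.MP_be0b77_nt
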